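import Mathlib
import Pool.Agent.BranchNorm.Basic

/-!
# A branch group of binary tree automorphisms with an automorphism that no tree automorphism induces

`MP_79f901_al`, Q1 (disproof).  The binary tree is `List Bool` with the prefix relation `<+:`; its
automorphisms are the permutations that preserve `<+:` both ways.  `L` is the group of all tree
automorphisms that act on the second level `{00, 01, 10, 11}` by a translation of `(ℤ/2)²`.
The first two letters of every word of length at least two can be interchanged; this is no tree
automorphism, but it carries `L` to itself.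
-/

set_option autoImplicit false

namespace Pool.Agent.Results.MP_79f901_al.BranchSwapAutomorphism

open Pool.Agent.BranchNorm

lemma length_le_of_mono (σ : Equiv.Perm (List Bool)) (h : ∀ v w : List Bool, v <+: w ↔ σ v <+: σ w)
    (v : List Bool) : v.length ≤ (σ v).length := by
  induction v using List.reverseRecOn with
  | nil => simp
  | append_singleton u x ih =>
    have h1 : σ u <+: σ (u ++ [x]) := (h _ _).1 (List.prefix_append _ _)
    have h2 : (σ u).length ≠ (σ (u ++ [x])).length := by
      intro h3
      have h4 := σ.injective (h1.eq_of_length h3)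
      simp at h4
    have h5 := h1.length_le
    rw [List.length_append, List.length_singleton]
    omega

/-- an automorphism of the rooted tree preserves the levels -/
lemma length_eq_of_mono (σ : Equiv.Perm (List Bool)) (h : ∀ v w : List Bool, v <+: w ↔ σ v <+: σ w)
    (v : List Bool) : (σ v).length = v.length := by
  refine le_antisymm ?_ (length_le_of_mono σ h v)
  have h1 := length_le_of_mono σ⁻¹ (fun v w => by rw [h (σ⁻¹ v) (σ⁻¹ w)]; simp) (σ v)
  simpa using h1

/-- translation by `0100...` -/
def t0 : ℕ → Bool := fun n => decide (n = 1)

theorem result :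
    ∃ L : Subgroup (Equiv.Perm (List Bool)),
      -- `L` consists of the automorphisms of the binary tree acting on level two by a translation
      (∀ g : Equiv.Perm (List Bool), g ∈ L ↔
        (∀ v w : List Bool, v <+: w ↔ g v <+: g w) ∧
          ∃ a b : Bool, ∀ p q : Bool, g [p, q] = [xor p a, xor q b]) ∧
      -- `L` is transitive on every level
      (∀ v w : List Bool, v.length = w.length → ∃ g ∈ L, g v = w) ∧
      -- every rigid level stabiliser has finite index in `L`
      (∀ n : ℕ, ((Subgroup.closure {g : Equiv.Perm (List Bool) | g ∈ L ∧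
        ∃ u : List Bool, u.length = n ∧
          ∀ v : List Bool, ¬ u <+: v → g v = v}).subgroupOf L).FiniteIndex) ∧
      -- an automorphism of order two of `L`: interchange the first two letters of every word
      ∃ φ : L ≃* L,
        (∀ g : L, φ (φ g) = g) ∧
        (∀ (g : L) (x y x' y' : Bool) (l l' : List Bool),
          (g : Equiv.Perm (List Bool)) (x :: y :: l) = x' :: y' :: l' →
            (φ g : Equiv.Perm (List Bool)) (y :: x :: l) = y' :: x' :: l') ∧
        -- one element of `L` is not conjugate to its image under any tree automorphism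
        ∃ g : L, (∀ x : Bool, (g : Equiv.Perm (List Bool)) [x] = [x]) ∧
          (∀ x : Bool, (φ g : Equiv.Perm (List Bool)) [x] = [!x]) ∧
          ∀ σ : Equiv.Perm (List Bool), (∀ v w : List Bool, v <+: w ↔ σ v <+: σ w) →
            (φ g : Equiv.Perm (List Bool)) ≠ σ * (g : Equiv.Perm (List Bool)) * σ⁻¹ := by
  refine ⟨L, ?_, L_trans, fun n => ⟨index_ne n⟩, phi, ?_, ?_, ⟨trP t0, trP_mem t0⟩, ?_, ?_, ?_⟩
  · intro g
    rw [mem_L]
    constructor
    · rintro ⟨h1, -, h3⟩
      exact ⟨h1, h3⟩
    · rintro ⟨h1, h3⟩
      exact ⟨h1, length_eq_of_mono g h1, h3⟩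
  · intro g
    ext1
    ext1 v
    exact F_F g v
  · intro g x y x' y' l l' h
    rw [phi_apply]
    show sw (g.1 (x :: y :: l)) = y' :: x' :: l'
    rw [h, sw_cons]
  · intro x
    cases x <;> rfl
  · intro x
    cases x <;> rfl
  · intro σ hσ h
    have h3 := congrArg (fun p : Equiv.Perm (List Bool) => p [true]) h
    simp only [Equiv.Perm.mul_apply] at h3
    have h4 : (phi ⟨trP t0, trP_mem t0⟩ : Equiv.Perm (List Bool)) [true] = [false] := rfl
    rw [h4] at h3
    have h5 : (σ⁻¹ [true]).length = 1 := by
      have := length_eq_of_mono σ hσ (σ⁻¹ [true])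
      simpa using this.symm
    obtain ⟨y, hy⟩ := List.length_eq_one_iff.mp h5
    rw [hy] at h3
    have h8 : (trP t0) [y] = [y] := by cases y <;> rfl
    rw [h8, ← hy] at h3
    simp at h3

end Pool.Agent.Results.MP_79f901_al.BranchSwapAutomorphism
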